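import Mathlib

/-!
# Crystals of flagged skew tableaux and Demazure crystals
-/

namespace Q4.Dem

/-- A skew shape `κ / μ` (`κ = outer`, `μ = inner`, at most `len` rows). Rows and columns are
numbered from `0`; the cells are the pairs `(r, c)` with `μ_r ≤ c < κ_r`. -/
structure SkewShape : Type where
  len : ℕ
  outer : ℕ → ℕ
  inner : ℕ → ℕ
  outer_anti : Antitone outer
  inner_anti : Antitone inner
  inner_le : ∀ r, inner r ≤ outer r
  outer_zero : ∀ r, len ≤ r → outer r = 0

/-- The cells in the order of the reading word: the rows from bottom to top, each row from left to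
right. -/
def SkewShape.cells (s : SkewShape) : List (ℕ × ℕ) :=
  (List.range s.len).reverse.flatMap fun r =>
    (List.range' (s.inner r) (s.outer r - s.inner r)).map fun c => (r, c)

/-- `T` is a semistandard tableau of shape `s` with entries in `{1, …, n}` (extended by `0` outside
of the shape). -/
structure IsTableau (n : ℕ) (s : SkewShape) (T : ℕ × ℕ → ℕ) : Prop where
  zero : ∀ x, x ∉ s.cells → T x = 0
  range : ∀ x, x ∈ s.cells → 1 ≤ T x ∧ T x ≤ n
  row : ∀ r c c', (r, c) ∈ s.cells → (r, c') ∈ s.cells → c < c' → T (r, c) ≤ T (r, c')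
  col : ∀ r r' c, (r, c) ∈ s.cells → (r', c) ∈ s.cells → r < r' → T (r, c) < T (r', c)

/-- The bracketing: going through the list of cells, each entry `b` is matched with an earlier
entry `a` which is not yet matched, if there is one (`k` is the number of entries `a` waiting to be
matched). The result is the last cell whose entry `b` is unmatched. -/
def scan (T : ℕ × ℕ → ℕ) (a b : ℕ) : List (ℕ × ℕ) → ℕ → Option (ℕ × ℕ) → Option (ℕ × ℕ)
  | [], _, y => y
  | x :: l, k, y =>
    if T x = a then scan T a b l (k + 1) y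
    else if T x = b then (if k = 0 then scan T a b l 0 (some x) else scan T a b l (k - 1) y)
    else scan T a b l k y

/-- The crystal operator `f_i` (signature rule on the reading word): the rightmost entry `i` which
is not matched with an entry `i + 1` to its left is changed to `i + 1`. -/
def fOp (s : SkewShape) (i : ℕ) (T : ℕ × ℕ → ℕ) : Option (ℕ × ℕ → ℕ) :=
  (scan T (i + 1) i s.cells 0 none).map fun x => Function.update T x (i + 1)

/-- The crystal operator `e_i` (signature rule on the reading word): the leftmost entry `i + 1`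
which is not matched with an entry `i` to its right is changed to `i`. -/
def eOp (s : SkewShape) (i : ℕ) (T : ℕ × ℕ → ℕ) : Option (ℕ × ℕ → ℕ) :=
  (scan T i (i + 1) s.cells.reverse 0 none).map fun x => Function.update T x i

/-- The flagged skew tableaux of shape `s` with flag `b` and entries in `{1, …, n}`: the entries of
row `r` are at most `b r`. -/
def flagged (n : ℕ) (s : SkewShape) (b : ℕ → ℕ) : Set (ℕ × ℕ → ℕ) :=
  {T | IsTableau n s T ∧ ∀ x, x ∈ s.cells → T x ≤ b x.1}

/-- The straight shape of a partition with at most `n` parts. -/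
def straight (n : ℕ) (lam : ℕ → ℕ) (h1 : Antitone lam) (h2 : ∀ r, n ≤ r → lam r = 0) : SkewShape where
  len := n
  outer := lam
  inner := fun _ => 0
  outer_anti := h1
  inner_anti := fun _ _ _ => le_rfl
  inner_le := fun _ => Nat.zero_le _
  outer_zero := h2

/-- The highest weight tableau: all entries of row `r` are `r + 1`. -/
def highest (s : SkewShape) (x : ℕ × ℕ) : ℕ := if x ∈ s.cells then x.1 + 1 else 0

/-- The set `𝒟_{i_1} ⋯ 𝒟_{i_k} {u_λ}` of the word `i_1 … i_k`, where `𝒟_i X` consists of the defined
`f_i^k x` with `x ∈ X` and `k ≥ 0`. -/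
def demazure (s : SkewShape) : List ℕ → Set (ℕ × ℕ → ℕ)
  | [] => {highest s}
  | i :: l => {y | ∃ x ∈ demazure s l, ∃ k : ℕ, (fun o => Option.bind o (fOp s i))^[k] (some x) = some y}

/-- The product of the simple transpositions `s_i = (i, i + 1)` of a word. -/
def wordPerm (l : List ℕ) : Equiv.Perm ℕ := (l.map fun i => Equiv.swap i (i + 1)).prod

/-- `l` is a reduced word of `w ∈ S_n` (the symmetric group of `{1, …, n}`). -/
def IsReducedWord (n : ℕ) (w : Equiv.Perm ℕ) (l : List ℕ) : Prop :=
  (∀ i ∈ l, 1 ≤ i ∧ i < n) ∧ wordPerm l = w ∧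
    ∀ l' : List ℕ, (∀ i ∈ l', 1 ≤ i ∧ i < n) → wordPerm l' = w → l.length ≤ l'.length

open Classical in
/-- The restriction of a crystal operator to a subset `S`: it is undefined whenever the result is
not in `S`. -/
noncomputable def restr (S : Set (ℕ × ℕ → ℕ)) (g : (ℕ × ℕ → ℕ) → Option (ℕ × ℕ → ℕ))
    (x : ℕ × ℕ → ℕ) : Option (ℕ × ℕ → ℕ) :=
  (g x).filter fun y => decide (y ∈ S)

/-- `φ` is an isomorphism from the crystal `S` (with the operators of the tableau crystal of shape
`s`, restricted to `S`) to the crystal `S'`. -/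
structure IsCrystalIso (n : ℕ) (s s' : SkewShape) (S S' : Set (ℕ × ℕ → ℕ))
    (φ : (ℕ × ℕ → ℕ) → (ℕ × ℕ → ℕ)) : Prop where
  bij : Set.BijOn φ S S'
  comm_e : ∀ i, 1 ≤ i → i < n → ∀ x ∈ S,
    restr S' (eOp s' i) (φ x) = (restr S (eOp s i) x).map φ
  comm_f : ∀ i, 1 ≤ i → i < n → ∀ x ∈ S,
    restr S' (fOp s' i) (φ x) = (restr S (fOp s i) x).map φ

end Q4.Dem
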