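import Pool.Agent.Q4.Dem.Small

/-!
# The Demazure crystal of `λ = (2,1,1)` and `w = s₂ s₁ s₃` is not a crystal of flagged tableaux
-/

namespace Q4.Dem

/-- The cell found by the bracketing rule has the entry `b`. -/
lemma scan_some (T : ℕ × ℕ → ℕ) (a b : ℕ) :
    ∀ (l : List (ℕ × ℕ)) (k : ℕ) (y : Option (ℕ × ℕ)), (∀ z, y = some z → T z = b) →
      ∀ z, scan T a b l k y = some z → T z = b := by
  intro l
  induction l with
  | nil =>
    intro k y hy z hz
    exact hy z hz
  | cons x l ih =>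
    intro k y hy z hz
    unfold scan at hz
    split_ifs at hz with h1 h2 h3
    · exact ih _ _ hy z hz
    · refine ih _ _ ?_ z hz
      intro z' hz'
      rw [← Option.some.inj hz']
      exact h2
    · exact ih _ _ hy z hz
    · exact ih _ _ hy z hz

lemma fOp_some {s : SkewShape} {i : ℕ} {T T' : ℕ × ℕ → ℕ} (h : fOp s i T = some T') :
    ∃ x, T x = i ∧ T' = Function.update T x (i + 1) := by
  unfold fOp at h
  obtain ⟨x, hx, hx2⟩ := Option.map_eq_some_iff.mp h
  exact ⟨x, scan_some _ _ _ _ _ _ (by intro z hz; cases hz) x hx, hx2.symm⟩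

lemma restr_some {S : Set (ℕ × ℕ → ℕ)} {g : (ℕ × ℕ → ℕ) → Option (ℕ × ℕ → ℕ)}
    {x y : ℕ × ℕ → ℕ} (h : g x = some y) (hy : y ∈ S) : restr S g x = some y := by
  classical
  unfold restr
  rw [h, Option.filter_some]
  simp [hy]

lemma of_restr {S : Set (ℕ × ℕ → ℕ)} {g : (ℕ × ℕ → ℕ) → Option (ℕ × ℕ → ℕ)}
    {x y : ℕ × ℕ → ℕ} (h : restr S g x = some y) : g x = some y := by
  classical
  unfold restr at h
  exact (Option.filter_eq_some_iff.mp h).1

lemma arrow {n : ℕ} {s s' : SkewShape} {S S' : Set (ℕ × ℕ → ℕ)} {φ : (ℕ × ℕ → ℕ) → (ℕ × ℕ → ℕ)}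
    (h : IsCrystalIso n s s' S S' φ) (i : ℕ) (hi1 : 1 ≤ i) (hi2 : i < n) (x y : ℕ × ℕ → ℕ)
    (hx : x ∈ S) (hy : y ∈ S) (hxy : fOp s i x = some y) :
    ∃ z, φ x z = i ∧ φ y = Function.update (φ x) z (i + 1) := by
  have h1 := h.comm_f i hi1 hi2 x hx
  rw [restr_some hxy hy] at h1
  exact fOp_some (of_restr h1)

lemma arrow_le {n : ℕ} {s s' : SkewShape} {S S' : Set (ℕ × ℕ → ℕ)}
    {φ : (ℕ × ℕ → ℕ) → (ℕ × ℕ → ℕ)}
    (h : IsCrystalIso n s s' S S' φ) (i : ℕ) (hi1 : 1 ≤ i) (hi2 : i < n) (x y : ℕ × ℕ → ℕ)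
    (hx : x ∈ S) (hy : y ∈ S) (hxy : fOp s i x = some y) (w : ℕ × ℕ) : φ x w ≤ φ y w := by
  obtain ⟨z, hz, hz2⟩ := arrow h i hi1 hi2 x y hx hy hxy
  rw [hz2]
  by_cases hw : w = z
  · subst hw
    rw [Function.update_self, hz]
    omega
  · rw [Function.update_of_ne hw]

lemma flagged_max {n : ℕ} {s : SkewShape} {b : ℕ → ℕ} {T T' : ℕ × ℕ → ℕ}
    (h : T ∈ flagged n s b) (h' : T' ∈ flagged n s b) :
    (fun x => max (T x) (T' x)) ∈ flagged n s b := by
  obtain ⟨⟨a1, a2, a3, a4⟩, a5⟩ := h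
  obtain ⟨⟨b1, b2, b3, b4⟩, b5⟩ := h'
  refine ⟨⟨?_, ?_, ?_, ?_⟩, ?_⟩
  · intro x hx
    show max (T x) (T' x) = 0
    rw [a1 x hx, b1 x hx]
    rfl
  · intro x hx
    have := a2 x hx
    have := b2 x hx
    show 1 ≤ max (T x) (T' x) ∧ max (T x) (T' x) ≤ n
    omega
  · intro r c c' h1 h2 h3
    have := a3 r c c' h1 h2 h3
    have := b3 r c c' h1 h2 h3
    show max (T (r, c)) (T' (r, c)) ≤ max (T (r, c')) (T' (r, c'))
    omega
  · intro r r' c h1 h2 h3
    have := a4 r r' c h1 h2 h3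
    have := b4 r r' c h1 h2 h3
    show max (T (r, c)) (T' (r, c)) < max (T (r', c)) (T' (r', c))
    omega
  · intro x hx
    have := a5 x hx
    have := b5 x hx
    show max (T x) (T' x) ≤ b x.1
    omega

lemma flagged_min {n : ℕ} {s : SkewShape} {b : ℕ → ℕ} {T T' : ℕ × ℕ → ℕ}
    (h : T ∈ flagged n s b) (h' : T' ∈ flagged n s b) :
    (fun x => min (T x) (T' x)) ∈ flagged n s b := by
  obtain ⟨⟨a1, a2, a3, a4⟩, a5⟩ := h
  obtain ⟨⟨b1, b2, b3, b4⟩, b5⟩ := h'
  refine ⟨⟨?_, ?_, ?_, ?_⟩, ?_⟩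
  · intro x hx
    show min (T x) (T' x) = 0
    rw [a1 x hx, b1 x hx]
    rfl
  · intro x hx
    have := a2 x hx
    have := b2 x hx
    show 1 ≤ min (T x) (T' x) ∧ min (T x) (T' x) ≤ n
    omega
  · intro r c c' h1 h2 h3
    have := a3 r c c' h1 h2 h3
    have := b3 r c c' h1 h2 h3
    show min (T (r, c)) (T' (r, c)) ≤ min (T (r, c')) (T' (r, c'))
    omega
  · intro r r' c h1 h2 h3
    have := a4 r r' c h1 h2 h3
    have := b4 r r' c h1 h2 h3
    show min (T (r, c)) (T' (r, c)) < min (T (r', c)) (T' (r', c))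
    omega
  · intro x hx
    have := a5 x hx
    have := b5 x hx
    show min (T x) (T' x) ≤ b x.1
    omega

theorem main (s : SkewShape) (b : ℕ → ℕ) (φ : (ℕ × ℕ → ℕ) → (ℕ × ℕ → ℕ))
    (h : IsCrystalIso 4 s0 s (demazure s0 [2, 1, 3]) (flagged 4 s b) φ) : False := by
  obtain ⟨p, hp, hA⟩ := arrow h 1 (by norm_num) (by norm_num) _ _ mem_u mem_a f_u1
  obtain ⟨r, hr, hC⟩ := arrow h 3 (by norm_num) (by norm_num) _ _ mem_u mem_c f_u3
  obtain ⟨q, hq, hG⟩ := arrow h 2 (by norm_num) (by norm_num) _ _ mem_a mem_g f_a2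
  obtain ⟨x, hx, hE⟩ := arrow h 2 (by norm_num) (by norm_num) _ _ mem_c mem_e f_c2
  -- the other arrows
  have lg := arrow_le h 2 (by norm_num) (by norm_num) _ _ mem_a mem_g f_a2
  have ld := arrow_le h 1 (by norm_num) (by norm_num) _ _ mem_c mem_d f_c1
  have le := arrow_le h 2 (by norm_num) (by norm_num) _ _ mem_c mem_e f_c2
  have lh := arrow_le h 2 (by norm_num) (by norm_num) _ _ mem_d mem_h f_d2
  have lk := arrow_le h 2 (by norm_num) (by norm_num) _ _ mem_h mem_k f_h2
  have hUX : φ (tb 1 2 3 1) ∈ flagged 4 s b := h.bij.mapsTo mem_u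
  have hAX : φ (tb 1 2 3 2) ∈ flagged 4 s b := h.bij.mapsTo mem_a
  have hCX : φ (tb 1 2 4 1) ∈ flagged 4 s b := h.bij.mapsTo mem_c
  have hGX : φ (tb 1 2 3 3) ∈ flagged 4 s b := h.bij.mapsTo mem_g
  have hEX : φ (tb 1 3 4 1) ∈ flagged 4 s b := h.bij.mapsTo mem_e
  generalize hU : φ (tb 1 2 3 1) = U at *
  generalize hA' : φ (tb 1 2 3 2) = A at *
  generalize hC' : φ (tb 1 2 4 1) = C at *
  generalize hG' : φ (tb 1 2 3 3) = G at *
  generalize hE' : φ (tb 1 3 4 1) = E at *
  have hpr : p ≠ r := by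
    intro hh
    rw [hh] at hp
    omega
  have hAp : A p = 2 := by rw [hA, Function.update_self]
  have hCr : C r = 4 := by rw [hC, Function.update_self]
  have hAr : A r = 3 := by rw [hA, Function.update_of_ne hpr.symm]; exact hr
  have hCp : C p = 1 := by rw [hC, Function.update_of_ne hpr]; exact hp
  have hqr : q ≠ r := by
    intro hh
    rw [hh] at hq
    omega
  have hxp : x ≠ p := by
    intro hh
    rw [hh] at hx
    omega
  have hxr : x ≠ r := by
    intro hh
    rw [hh] at hx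
    omega
  have hUx : U x = 2 := by
    rw [hC, Function.update_of_ne hxr] at hx
    exact hx
  have hGq : G q = 3 := by rw [hG, Function.update_self]
  have hEx : E x = 3 := by rw [hE, Function.update_self]
  have hGr : G r = 3 := by rw [hG, Function.update_of_ne hqr.symm]; exact hAr
  have hEp : E p = 1 := by rw [hE, Function.update_of_ne hxp.symm]; exact hCp
  have hEr : E r = 4 := by rw [hE, Function.update_of_ne hxr.symm]; exact hCr
  have hqx : q ≠ x := by
    intro hh
    subst hh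
    have hy := flagged_min hEX hGX
    obtain ⟨v, hv, hv2⟩ := h.bij.surjOn hy
    have yp : φ v p ≤ 1 := by
      rw [hv2]
      show min (E p) (G p) ≤ 1
      omega
    have yr : φ v r ≤ 3 := by
      rw [hv2]
      show min (E r) (G r) ≤ 3
      omega
    have yq : φ v q = 3 := by
      rw [hv2]
      show min (E q) (G q) = 3
      omega
    rcases dem213 v hv with rfl | rfl | rfl | rfl | rfl | rfl | rfl | rfl
    · rw [hU] at yq
      omega
    · rw [hA'] at yp
      omega
    · rw [hC'] at yr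
      omega
    · have := ld r
      omega
    · rw [hG'] at yp
      have := lg p
      omega
    · rw [hE'] at yr
      omega
    · have := ld r
      have := lh r
      omega
    · have := ld r
      have := lh r
      have := lk r
      omega
  -- the nine maxima
  have P : ∀ i : Fin 3, ∃ P, P ∈ flagged 4 s b ∧ P r = U r ∧ P x = U x ∧
      U p ≤ P p ∧ U q ≤ P q ∧ (q ≠ p → P p + P q = 3 + i) ∧ (q = p → P p = 1 + i) := by
    intro i
    fin_cases i
    · refine ⟨U, hUX, rfl, rfl, le_rfl, le_rfl, ?_, ?_⟩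
      · intro hqp
        have : A q = U q := by rw [hA, Function.update_of_ne hqp]
        show U p + U q = 3 + 0
        omega
      · intro hqp
        show U p = 1 + 0
        omega
    · refine ⟨A, hAX, ?_, ?_, ?_, ?_, ?_, ?_⟩
      · omega
      · rw [hA, Function.update_of_ne hxp]
      · omega
      · by_cases hqp : q = p
        · rw [hqp]
          omega
        · rw [hA, Function.update_of_ne hqp]
      · intro hqp
        show A p + A q = 3 + 1
        omega
      · intro hqp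
        show A p = 1 + 1
        omega
    · refine ⟨G, hGX, ?_, ?_, ?_, ?_, ?_, ?_⟩
      · omega
      · rw [hG, Function.update_of_ne hqx.symm, hA, Function.update_of_ne hxp]
      · have := lg p
        omega
      · by_cases hqp : q = p
        · rw [hqp] at hGq ⊢
          omega
        · have : A q = U q := by rw [hA, Function.update_of_ne hqp]
          omega
      · intro hqp
        have : G p = A p := by rw [hG, Function.update_of_ne (Ne.symm hqp)]
        show G p + G q = 3 + 2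
        omega
      · intro hqp
        rw [hqp] at hGq
        show G p = 1 + 2
        omega
  have Q : ∀ j : Fin 3, ∃ Q, Q ∈ flagged 4 s b ∧ Q p = U p ∧ Q q = U q ∧
      U r ≤ Q r ∧ U x ≤ Q x ∧ Q r + Q x = 5 + j := by
    intro j
    fin_cases j
    · refine ⟨U, hUX, rfl, rfl, le_rfl, le_rfl, ?_⟩
      show U r + U x = 5 + 0
      omega
    · refine ⟨C, hCX, ?_, ?_, ?_, ?_, ?_⟩
      · omega
      · rw [hC, Function.update_of_ne hqr]
      · omega
      · omega
      · show C r + C x = 5 + 1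
        omega
    · refine ⟨E, hEX, ?_, ?_, ?_, ?_, ?_⟩
      · omega
      · rw [hE, Function.update_of_ne hqx, hC, Function.update_of_ne hqr]
      · omega
      · omega
      · show E r + E x = 5 + 2
        omega
  choose P hP1 hP2 hP3 hP4 hP5 hP6 hP7 using P
  choose Q hQ1 hQ2 hQ3 hQ4 hQ5 hQ6 using Q
  let L : Fin 8 → (ℕ × ℕ → ℕ) := ![tb 1 2 3 1, tb 1 2 3 2, tb 1 2 4 1, tb 1 2 4 2, tb 1 2 3 3,
    tb 1 3 4 1, tb 1 2 4 3, tb 1 3 4 3]
  have key : ∀ ij : Fin 3 × Fin 3, ∃ k : Fin 8, φ (L k) = fun z => max (P ij.1 z) (Q ij.2 z) := by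
    intro ij
    obtain ⟨v, hv, hv2⟩ := h.bij.surjOn (flagged_max (hP1 ij.1) (hQ1 ij.2))
    rcases dem213 v hv with rfl | rfl | rfl | rfl | rfl | rfl | rfl | rfl
    · exact ⟨0, hv2⟩
    · exact ⟨1, hv2⟩
    · exact ⟨2, hv2⟩
    · exact ⟨3, hv2⟩
    · exact ⟨4, hv2⟩
    · exact ⟨5, hv2⟩
    · exact ⟨6, hv2⟩
    · exact ⟨7, hv2⟩
  choose g hg using key
  have hinj : Function.Injective g := by
    intro ij kl hh
    have h1 := hg ij
    rw [hh, hg kl] at h1
    have e : ∀ z, max (P kl.1 z) (Q kl.2 z) = max (P ij.1 z) (Q ij.2 z) := fun z =>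
      congrFun h1 z
    have ep := e p
    have eq := e q
    have er := e r
    have ex := e x
    have a1 := hP2 ij.1
    have a2 := hP3 ij.1
    have a3 := hP4 ij.1
    have a4 := hP5 ij.1
    have a5 := hP6 ij.1
    have a6 := hP7 ij.1
    have b1 := hQ2 ij.2
    have b2 := hQ3 ij.2
    have b3 := hQ4 ij.2
    have b4 := hQ5 ij.2
    have b5 := hQ6 ij.2
    have c1 := hP2 kl.1
    have c2 := hP3 kl.1
    have c3 := hP4 kl.1
    have c4 := hP5 kl.1
    have c5 := hP6 kl.1
    have c6 := hP7 kl.1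
    have d1 := hQ2 kl.2
    have d2 := hQ3 kl.2
    have d3 := hQ4 kl.2
    have d4 := hQ5 kl.2
    have d5 := hQ6 kl.2
    have f1 : P kl.1 p = P ij.1 p := by omega
    have f2 : P kl.1 q = P ij.1 q := by omega
    have f3 : Q kl.2 r = Q ij.2 r := by omega
    have f4 : Q kl.2 x = Q ij.2 x := by omega
    have g1 : (ij.1 : ℕ) = kl.1 := by
      by_cases hqp : q = p
      · have := a6 hqp
        have := c6 hqp
        omega
      · have := a5 hqp
        have := c5 hqp
        omega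
    have g2 : (ij.2 : ℕ) = kl.2 := by omega
    exact Prod.ext (Fin.ext g1) (Fin.ext g2)
  have hc := Fintype.card_le_of_injective g hinj
  simp at hc

end Q4.Dem
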