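import Pool.Agent.Q4.Dem.Defs

/-!
# The Demazure crystal of `λ = (2,1,1)` and `w = s₂ s₁ s₃`
-/

namespace Q4.Dem

/-- The partition `(2, 1, 1)`. -/
def lam (r : ℕ) : ℕ := if r = 0 then 2 else if r ≤ 2 then 1 else 0

lemma lam_anti : Antitone lam := by
  intro a b hab
  unfold lam
  split_ifs <;> omega

lemma lam_zero : ∀ r, 4 ≤ r → lam r = 0 := by
  intro r hr
  unfold lam
  split_ifs <;> omega

/-- The straight shape `(2, 1, 1)`. -/
abbrev s0 : SkewShape := straight 4 lam lam_anti lam_zero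

lemma cells_s0 : s0.cells = [(2, 0), (1, 0), (0, 0), (0, 1)] := by
  decide

/-- The filling with first column `a1, a2, a3` and the entry `b` in the cell `(0, 1)`. -/
def tb (a1 a2 a3 b : ℕ) (x : ℕ × ℕ) : ℕ :=
  if x = (0, 0) then a1 else if x = (1, 0) then a2 else if x = (2, 0) then a3
  else if x = (0, 1) then b else 0

lemma tb1 (a1 a2 a3 b : ℕ) : tb a1 a2 a3 b (0, 0) = a1 := by simp [tb]
lemma tb2 (a1 a2 a3 b : ℕ) : tb a1 a2 a3 b (1, 0) = a2 := by simp [tb]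
lemma tb3 (a1 a2 a3 b : ℕ) : tb a1 a2 a3 b (2, 0) = a3 := by simp [tb]
lemma tb4 (a1 a2 a3 b : ℕ) : tb a1 a2 a3 b (0, 1) = b := by simp [tb]

lemma up2 (a1 a2 a3 b v : ℕ) : Function.update (tb a1 a2 a3 b) (1, 0) v = tb a1 v a3 b := by
  funext x
  by_cases h : x = (1, 0)
  · subst h
    simp [tb]
  · rw [Function.update_of_ne h]
    simp [tb, h]

lemma up3 (a1 a2 a3 b v : ℕ) : Function.update (tb a1 a2 a3 b) (2, 0) v = tb a1 a2 v b := by
  funext x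
  by_cases h : x = (2, 0)
  · subst h
    simp [tb]
  · rw [Function.update_of_ne h]
    simp [tb, h]

lemma up4 (a1 a2 a3 b v : ℕ) : Function.update (tb a1 a2 a3 b) (0, 1) v = tb a1 a2 a3 v := by
  funext x
  by_cases h : x = (0, 1)
  · subst h
    simp [tb]
  · rw [Function.update_of_ne h]
    simp [tb, h]

lemma highest_s0 : highest s0 = tb 1 2 3 1 := by
  funext x
  unfold highest tb
  rw [cells_s0]
  by_cases h1 : x = (0, 0)
  · subst h1; simp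
  · by_cases h2 : x = (1, 0)
    · subst h2; simp
    · by_cases h3 : x = (2, 0)
      · subst h3; simp
      · by_cases h4 : x = (0, 1)
        · subst h4; simp
        · simp [h1, h2, h3, h4]

lemma f_u1 : fOp s0 1 (tb 1 2 3 1) = some (tb 1 2 3 2) := by
  simp [fOp, cells_s0, scan, tb1, tb2, tb3, tb4, up2, up3, up4]
lemma f_u2 : fOp s0 2 (tb 1 2 3 1) = none := by
  simp [fOp, cells_s0, scan, tb1, tb2, tb3, tb4, up2, up3, up4]
lemma f_u3 : fOp s0 3 (tb 1 2 3 1) = some (tb 1 2 4 1) := by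
  simp [fOp, cells_s0, scan, tb1, tb2, tb3, tb4, up2, up3, up4]
lemma f_a1 : fOp s0 1 (tb 1 2 3 2) = none := by
  simp [fOp, cells_s0, scan, tb1, tb2, tb3, tb4, up2, up3, up4]
lemma f_a2 : fOp s0 2 (tb 1 2 3 2) = some (tb 1 2 3 3) := by
  simp [fOp, cells_s0, scan, tb1, tb2, tb3, tb4, up2, up3, up4]
lemma f_g2 : fOp s0 2 (tb 1 2 3 3) = none := by
  simp [fOp, cells_s0, scan, tb1, tb2, tb3, tb4, up2, up3, up4]
lemma f_c1 : fOp s0 1 (tb 1 2 4 1) = some (tb 1 2 4 2) := by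
  simp [fOp, cells_s0, scan, tb1, tb2, tb3, tb4, up2, up3, up4]
lemma f_c2 : fOp s0 2 (tb 1 2 4 1) = some (tb 1 3 4 1) := by
  simp [fOp, cells_s0, scan, tb1, tb2, tb3, tb4, up2, up3, up4]
lemma f_c3 : fOp s0 3 (tb 1 2 4 1) = none := by
  simp [fOp, cells_s0, scan, tb1, tb2, tb3, tb4, up2, up3, up4]
lemma f_d1 : fOp s0 1 (tb 1 2 4 2) = none := by
  simp [fOp, cells_s0, scan, tb1, tb2, tb3, tb4, up2, up3, up4]
lemma f_d2 : fOp s0 2 (tb 1 2 4 2) = some (tb 1 2 4 3) := by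
  simp [fOp, cells_s0, scan, tb1, tb2, tb3, tb4, up2, up3, up4]
lemma f_e2 : fOp s0 2 (tb 1 3 4 1) = none := by
  simp [fOp, cells_s0, scan, tb1, tb2, tb3, tb4, up2, up3, up4]
lemma f_h2 : fOp s0 2 (tb 1 2 4 3) = some (tb 1 3 4 3) := by
  simp [fOp, cells_s0, scan, tb1, tb2, tb3, tb4, up2, up3, up4]
lemma f_k2 : fOp s0 2 (tb 1 3 4 3) = none := by
  simp [fOp, cells_s0, scan, tb1, tb2, tb3, tb4, up2, up3, up4]

/-- The map iterated in the definition of the Demazure operators. -/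
lemma iter_none (i k : ℕ) : (fun o => Option.bind o (fOp s0 i))^[k] none = none := by
  induction k with
  | zero => rfl
  | succ k ih => rw [Function.iterate_succ_apply]; exact ih

lemma iter0 (i : ℕ) (x y : ℕ × ℕ → ℕ) (hx : fOp s0 i x = none) (k : ℕ)
    (h : (fun o => Option.bind o (fOp s0 i))^[k] (some x) = some y) : y = x := by
  cases k with
  | zero => exact (Option.some.inj h).symm
  | succ k =>
    rw [Function.iterate_succ_apply] at h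
    have h2 : Option.bind (some x) (fOp s0 i) = none := hx
    rw [h2, iter_none] at h
    cases h

lemma iter1 (i : ℕ) (x z y : ℕ × ℕ → ℕ) (hx : fOp s0 i x = some z) (k : ℕ)
    (h : (fun o => Option.bind o (fOp s0 i))^[k] (some x) = some y) :
    y = x ∨ ∃ k, (fun o => Option.bind o (fOp s0 i))^[k] (some z) = some y := by
  cases k with
  | zero => exact Or.inl (Option.some.inj h).symm
  | succ k =>
    rw [Function.iterate_succ_apply] at h
    have h2 : Option.bind (some x) (fOp s0 i) = some z := hx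
    rw [h2] at h
    exact Or.inr ⟨k, h⟩

/-- `𝒟₃ {u}`. -/
lemma dem3 (y : ℕ × ℕ → ℕ) (h : y ∈ demazure s0 [3]) : y = tb 1 2 3 1 ∨ y = tb 1 2 4 1 := by
  obtain ⟨x, hx, k, hk⟩ := h
  have hx2 : x = tb 1 2 3 1 := by
    have : x = highest s0 := hx
    rw [this, highest_s0]
  subst hx2
  rcases iter1 3 _ _ _ f_u3 k hk with h | ⟨k, hk⟩
  · exact Or.inl h
  · exact Or.inr (iter0 3 _ _ f_c3 k hk)

lemma dem13 (y : ℕ × ℕ → ℕ) (h : y ∈ demazure s0 [1, 3]) :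
    y = tb 1 2 3 1 ∨ y = tb 1 2 3 2 ∨ y = tb 1 2 4 1 ∨ y = tb 1 2 4 2 := by
  obtain ⟨x, hx, k, hk⟩ := h
  rcases dem3 x hx with hx2 | hx2
  · subst hx2
    rcases iter1 1 _ _ _ f_u1 k hk with h | ⟨k, hk⟩
    · exact Or.inl h
    · exact Or.inr (Or.inl (iter0 1 _ _ f_a1 k hk))
  · subst hx2
    rcases iter1 1 _ _ _ f_c1 k hk with h | ⟨k, hk⟩
    · exact Or.inr (Or.inr (Or.inl h))
    · exact Or.inr (Or.inr (Or.inr (iter0 1 _ _ f_d1 k hk)))

lemma dem213 (y : ℕ × ℕ → ℕ) (h : y ∈ demazure s0 [2, 1, 3]) :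
    y = tb 1 2 3 1 ∨ y = tb 1 2 3 2 ∨ y = tb 1 2 4 1 ∨ y = tb 1 2 4 2 ∨ y = tb 1 2 3 3 ∨
    y = tb 1 3 4 1 ∨ y = tb 1 2 4 3 ∨ y = tb 1 3 4 3 := by
  obtain ⟨x, hx, k, hk⟩ := h
  rcases dem13 x hx with hx2 | hx2 | hx2 | hx2
  · subst hx2
    exact Or.inl (iter0 2 _ _ f_u2 k hk)
  · subst hx2
    rcases iter1 2 _ _ _ f_a2 k hk with h | ⟨k, hk⟩
    · exact Or.inr (Or.inl h)
    · exact Or.inr (Or.inr (Or.inr (Or.inr (Or.inl (iter0 2 _ _ f_g2 k hk)))))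
  · subst hx2
    rcases iter1 2 _ _ _ f_c2 k hk with h | ⟨k, hk⟩
    · exact Or.inr (Or.inr (Or.inl h))
    · exact Or.inr (Or.inr (Or.inr (Or.inr (Or.inr (Or.inl (iter0 2 _ _ f_e2 k hk))))))
  · subst hx2
    rcases iter1 2 _ _ _ f_d2 k hk with h | ⟨k, hk⟩
    · exact Or.inr (Or.inr (Or.inr (Or.inl h)))
    · rcases iter1 2 _ _ _ f_h2 k hk with h | ⟨k, hk⟩
      · exact Or.inr (Or.inr (Or.inr (Or.inr (Or.inr (Or.inr (Or.inl h))))))
      · exact Or.inr (Or.inr (Or.inr (Or.inr (Or.inr (Or.inr (Or.inr (iter0 2 _ _ f_k2 k hk)))))))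

lemma mem_u0 : tb 1 2 3 1 ∈ demazure s0 [] := highest_s0.symm
lemma mem_step0 (i : ℕ) (l : List ℕ) (x : ℕ × ℕ → ℕ) (h : x ∈ demazure s0 l) :
    x ∈ demazure s0 (i :: l) := ⟨x, h, 0, rfl⟩
lemma mem_step1 (i : ℕ) (l : List ℕ) (x y : ℕ × ℕ → ℕ) (h : x ∈ demazure s0 l)
    (hy : fOp s0 i x = some y) : y ∈ demazure s0 (i :: l) := ⟨x, h, 1, hy⟩
lemma mem_step2 (i : ℕ) (l : List ℕ) (x y z : ℕ × ℕ → ℕ) (h : x ∈ demazure s0 l)
    (hy : fOp s0 i x = some y) (hz : fOp s0 i y = some z) : z ∈ demazure s0 (i :: l) := by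
  refine ⟨x, h, 2, ?_⟩
  rw [Function.iterate_succ_apply, Function.iterate_succ_apply, Function.iterate_zero_apply]
  have h1 : Option.bind (some x) (fOp s0 i) = some y := hy
  have h2 : Option.bind (some y) (fOp s0 i) = some z := hz
  rw [h1]
  exact h2

lemma mem_u : tb 1 2 3 1 ∈ demazure s0 [2, 1, 3] :=
  mem_step0 _ _ _ (mem_step0 _ _ _ (mem_step0 _ _ _ mem_u0))
lemma mem_a : tb 1 2 3 2 ∈ demazure s0 [2, 1, 3] :=
  mem_step0 _ _ _ (mem_step1 _ _ _ _ (mem_step0 _ _ _ mem_u0) f_u1)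
lemma mem_c' : tb 1 2 4 1 ∈ demazure s0 [1, 3] :=
  mem_step0 _ _ _ (mem_step1 _ _ _ _ mem_u0 f_u3)
lemma mem_d' : tb 1 2 4 2 ∈ demazure s0 [1, 3] :=
  mem_step1 _ _ _ _ (mem_step1 _ _ _ _ mem_u0 f_u3) f_c1
lemma mem_c : tb 1 2 4 1 ∈ demazure s0 [2, 1, 3] := mem_step0 _ _ _ mem_c'
lemma mem_d : tb 1 2 4 2 ∈ demazure s0 [2, 1, 3] := mem_step0 _ _ _ mem_d'
lemma mem_g : tb 1 2 3 3 ∈ demazure s0 [2, 1, 3] :=
  mem_step1 _ _ _ _ (mem_step1 _ _ _ _ (mem_step0 _ _ _ mem_u0) f_u1) f_a2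
lemma mem_e : tb 1 3 4 1 ∈ demazure s0 [2, 1, 3] := mem_step1 _ _ _ _ mem_c' f_c2
lemma mem_h : tb 1 2 4 3 ∈ demazure s0 [2, 1, 3] := mem_step1 _ _ _ _ mem_d' f_d2
lemma mem_k : tb 1 3 4 3 ∈ demazure s0 [2, 1, 3] := mem_step2 _ _ _ _ _ mem_d' f_d2 f_h2

lemma red : IsReducedWord 4 (wordPerm [2, 1, 3]) [2, 1, 3] := by
  refine ⟨by simp, rfl, ?_⟩
  intro l' hl' h
  have e1 := DFunLike.congr_fun h 1
  have e2 := DFunLike.congr_fun h 2
  have e3 := DFunLike.congr_fun h 3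
  have e4 := DFunLike.congr_fun h 4
  rcases l' with _ | ⟨i, _ | ⟨j, _ | ⟨k, l⟩⟩⟩
  · simp [wordPerm, Equiv.swap_apply_def] at e1
  · exfalso
    have hi := hl' i (by simp)
    obtain ⟨hi1, hi2⟩ := hi
    interval_cases i <;> simp [wordPerm, Equiv.swap_apply_def] at e1 e2 e3 e4
  · exfalso
    have hi := hl' i (by simp)
    have hj := hl' j (by simp)
    obtain ⟨hi1, hi2⟩ := hi
    obtain ⟨hj1, hj2⟩ := hj
    interval_cases i <;> interval_cases j <;>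
      simp [wordPerm, Equiv.swap_apply_def] at e1 e2 e3 e4
  · simp

end Q4.Dem
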